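import Mathlib

namespace Pool.Agent.H.MP_054fa1_nt

open Finset

/-- The product over `k = 1..n` of `1 + k i`. -/
def A (n : ℕ) : GaussianInt := ∏ k ∈ range n, (⟨1, (k : ℤ) + 1⟩ : GaussianInt)

theorem root (p : ℕ) [hp : Fact p.Prime] (h4 : p % 4 = 1) (m : ℕ) :
    ∃ r : ℤ, ((p : ℤ) ^ (m + 1)) ∣ r ^ 2 + 1 := by
  induction m with
  | zero =>
    obtain ⟨y, hy⟩ := (ZMod.exists_sq_eq_neg_one_iff (p := p)).2 (by omega)
    refine ⟨(y.val : ℤ), ?_⟩
    rw [zero_add, pow_one, ← ZMod.intCast_zmod_eq_zero_iff_dvd]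
    push_cast
    rw [ZMod.natCast_zmod_val, sq, ← hy]; ring
  | succ m ih =>
    obtain ⟨r, c, hc⟩ := ih
    have hodd : Odd ((p : ℤ) ^ (m + 1 + 1)) := by
      apply Odd.pow
      have : Odd p := Nat.odd_iff.2 (by omega)
      exact_mod_cast this
    obtain ⟨h, hh⟩ := hodd
    refine ⟨r * (3 + r ^ 2) * (h + 1), ?_⟩
    have e : (r * (3 + r ^ 2) * (h + 1)) ^ 2 + 1 =
        (r ^ 2 + 1) ^ 2 * (4 + r ^ 2) * (h + 1) ^ 2 - (2 * h + 1) * (2 * h + 3) := by ring
    rw [e, ← hh, hc]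
    apply dvd_sub _ (dvd_mul_right _ _)
    exact ⟨c ^ 2 * (p : ℤ) ^ m * (4 + r ^ 2) * (h + 1) ^ 2, by ring⟩

/-- natural roots `r`, `s` with `r + s = p^J`, `r^2 = -1`. -/
theorem root' (p : ℕ) [hp : Fact p.Prime] (h4 : p % 4 = 1) (m : ℕ) :
    ∃ r s : ℕ, r + s = p ^ (m + 1) ∧ ((p : ℤ) ^ (m + 1)) ∣ (r : ℤ) ^ 2 + 1 := by
  obtain ⟨r, hr⟩ := root p h4 m
  have hq : (0 : ℤ) < (p : ℤ) ^ (m + 1) := by have := hp.out.pos; positivity
  have h0 := Int.emod_nonneg r hq.ne'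
  have h1 := Int.emod_lt_of_pos r hq
  refine ⟨(r % (p : ℤ) ^ (m + 1)).toNat, p ^ (m + 1) - (r % (p : ℤ) ^ (m + 1)).toNat, ?_, ?_⟩
  · have : ((r % (p : ℤ) ^ (m + 1)).toNat : ℤ) < ((p ^ (m + 1) : ℕ) : ℤ) := by
      rw [Int.toNat_of_nonneg h0]; push_cast; exact h1
    omega
  · rw [Int.toNat_of_nonneg h0]
    have e := Int.emod_add_mul_ediv r ((p : ℤ) ^ (m + 1))
    set q := (p : ℤ) ^ (m + 1)
    have : (r % q) ^ 2 + 1 = (r ^ 2 + 1) - q * ((r / q) * (r + r % q)) := by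
      have : r % q = r - q * (r / q) := by linarith
      rw [this]; ring
    rw [this]
    exact dvd_sub hr (dvd_mul_right _ _)

theorem hom_eval (q : ℕ) (r s : ℕ) (hs : ((r : ZMod q) + s) = 0) (hr : (r : ZMod q) * r = -1)
    (n : ℕ) : ((A n).re : ZMod q) + (A n).im * r = (r : ZMod q) ^ n * ((s + 1).ascFactorial n : ℕ) := by
  induction n with
  | zero => simp [A]
  | succ n ih =>
    have e : A (n + 1) = A n * ⟨1, (n : ℤ) + 1⟩ := by simp [A, prod_range_succ]
    rw [e, Nat.ascFactorial_succ, Zsqrtd.re_mul, Zsqrtd.im_mul]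
    push_cast
    have hs' : (s : ZMod q) = -r := by linear_combination hs
    rw [pow_succ, hs'] at *
    linear_combination ((r : ZMod q) * ((n : ZMod q) + 1 - r)) * ih +
      (((A n).re : ZMod q) + (A n).im * r - ((n : ZMod q) + 1) * (A n).im) * hr

theorem lower (p : ℕ) [hp : Fact p.Prime] (h4 : p % 4 = 1) (n : ℕ) :
    (p : ℤ) ^ (n.factorial.factorization p) ∣ (A n).im := by
  set v := n.factorial.factorization p with hv
  obtain ⟨r, s, hrs, hr⟩ := root' p h4 v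
  have hd : p ^ v ∣ n.factorial := Nat.ordProj_dvd _ _
  have h1 : ((r : ZMod (p ^ v)) + s) = 0 := by
    rw [← Nat.cast_add, hrs, ZMod.natCast_eq_zero_iff]; exact pow_dvd_pow _ (by omega)
  have h2 : (r : ZMod (p ^ v)) * r = -1 := by
    have : ((p ^ v : ℕ) : ℤ) ∣ (r : ℤ) ^ 2 + 1 := by
      push_cast; exact (pow_dvd_pow _ (by omega)).trans hr
    rw [← ZMod.intCast_zmod_eq_zero_iff_dvd] at this
    push_cast at this
    linear_combination this
  have h3 : (s : ZMod (p ^ v)) * s = -1 := by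
    have : (s : ZMod (p ^ v)) = -r := by linear_combination h1
    rw [this]; linear_combination h2
  have e1 := hom_eval (p ^ v) r s h1 h2 n
  have e2 := hom_eval (p ^ v) s r (by linear_combination h1) h3 n
  have z : ∀ t : ℕ, (((t + 1).ascFactorial n : ℕ) : ZMod (p ^ v)) = 0 := fun t => by
    rw [ZMod.natCast_eq_zero_iff]; exact hd.trans (Nat.factorial_dvd_ascFactorial _ _)
  rw [z, mul_zero] at e1 e2
  have e3 : ((2 * (A n).im : ℤ) : ZMod (p ^ v)) = 0 := by
    push_cast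
    linear_combination (-(r : ZMod (p ^ v))) * e1 + (r : ZMod (p ^ v)) * e2 +
      2 * ((A n).im : ZMod (p ^ v)) * h2 - ((A n).im : ZMod (p ^ v)) * (r : ZMod (p ^ v)) * h1
  rw [ZMod.intCast_zmod_eq_zero_iff_dvd] at e3
  push_cast at e3
  have hc : IsCoprime ((p : ℤ) ^ v) 2 := by
    apply IsCoprime.pow_left
    have : Nat.Coprime p 2 := (Nat.coprime_primes hp.out Nat.prime_two).2 (by omega)
    exact_mod_cast Nat.isCoprime_iff_coprime.2 this
  exact hc.dvd_of_dvd_mul_left e3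

theorem normA (n : ℕ) : (A n).re ^ 2 + (A n).im ^ 2 = ((∏ k ∈ range n, (1 + (k + 1) ^ 2) : ℕ) : ℤ) := by
  induction n with
  | zero => simp [A]
  | succ n ih =>
    have e : A (n + 1) = A n * ⟨1, (n : ℤ) + 1⟩ := by simp [A, prod_range_succ]
    rw [e, prod_range_succ, Zsqrtd.re_mul, Zsqrtd.im_mul, Nat.cast_mul, ← ih]
    push_cast; ring

theorem upperN (p : ℕ) [hp : Fact p.Prime] (h4 : p % 4 = 1) (n m : ℕ) (hm : n ^ 2 + 1 < p ^ (m + 1)) :
    (∏ k ∈ range n, (1 + (k + 1) ^ 2) : ℕ).factorization p ≤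
      2 * (n.factorial.factorization p) + 2 * (m + 1) := by
  obtain ⟨r, s, hrs, hr⟩ := root' p h4 m
  have hp1 := hp.out.one_lt
  have key : ∀ k ∈ range n, (1 + (k + 1) ^ 2).factorization p ≤
      ((r + 1 + k) * (s + 1 + k)).factorization p := by
    intro k hk
    have hk' := mem_range.1 hk
    have hne : 1 + (k + 1) ^ 2 ≠ 0 := by positivity
    have hd : p ^ ((1 + (k + 1) ^ 2).factorization p) ∣ 1 + (k + 1) ^ 2 := Nat.ordProj_dvd _ _
    set w := (1 + (k + 1) ^ 2).factorization p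
    have hw : w ≤ m + 1 := by
      have h1 := Nat.le_of_dvd (by positivity) hd
      have h2 : (k + 1) ^ 2 ≤ n ^ 2 := Nat.pow_le_pow_left (by omega) 2
      have h3 : p ^ w < p ^ (m + 1) := by omega
      exact ((Nat.pow_lt_pow_iff_right hp1).1 h3).le
    apply (hp.out.pow_dvd_iff_le_factorization (by positivity)).1
    have hq : (p : ℤ) ^ w ∣ (p : ℤ) ^ (m + 1) := pow_dvd_pow _ hw
    have hrs' : (r : ℤ) + s = (p : ℤ) ^ (m + 1) := by exact_mod_cast hrs
    have hd' : (p : ℤ) ^ w ∣ 1 + ((k : ℤ) + 1) ^ 2 := by exact_mod_cast hd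
    have : (p : ℤ) ^ w ∣ ((r : ℤ) + 1 + k) * (s + 1 + k) := by
      have e : ((r : ℤ) + 1 + k) * (s + 1 + k) = (1 + ((k : ℤ) + 1) ^ 2) - ((r : ℤ) ^ 2 + 1) +
          (p : ℤ) ^ (m + 1) * (k + 1 + r) := by rw [← hrs']; ring
      rw [e]
      exact dvd_add (dvd_sub hd' (hq.trans hr)) (hq.mul_right _)
    exact_mod_cast this
  have hch : ∀ t : ℕ, t ≤ p ^ (m + 1) → ((t + 1).ascFactorial n).factorization p ≤
      n.factorial.factorization p + (m + 1) := by
    intro t ht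
    rw [Nat.ascFactorial_eq_factorial_mul_choose,
      Nat.factorization_mul (Nat.factorial_ne_zero _) (Nat.choose_pos (by omega)).ne']
    have h1 : ((t + n).choose n).factorization p ≤ Nat.log p (t + n) := Nat.factorization_choose_le_log
    have h2 : Nat.log p (t + n) < m + 2 := by
      rcases Nat.eq_zero_or_pos (t + n) with h | h
      · rw [h]; simp
      · apply Nat.log_lt_of_lt_pow h.ne'
        have : n ≤ n ^ 2 := Nat.le_self_pow (by norm_num) n
        have h3 : p ^ (m + 2) = p ^ (m + 1) * p := pow_succ _ _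
        have h5 : p ^ (m + 1) * 2 ≤ p ^ (m + 1) * p := Nat.mul_le_mul_left _ hp1
        omega
    simp only [Finsupp.coe_add, Pi.add_apply]
    omega
  rw [Nat.factorization_prod_apply (fun k _ => by positivity)]
  refine (sum_le_sum key).trans ?_
  rw [← Nat.factorization_prod_apply (fun k _ => by positivity), prod_mul_distrib,
    ← Nat.ascFactorial_eq_prod_range, ← Nat.ascFactorial_eq_prod_range,
    Nat.factorization_mul (Nat.ascFactorial_pos _ _).ne' (Nat.ascFactorial_pos _ _).ne']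
  have h1 := hch r (by omega)
  have h2 := hch s (by omega)
  simp only [Finsupp.coe_add, Pi.add_apply]
  omega

/-- both coordinates cannot be too divisible. -/
theorem both (p : ℕ) [hp : Fact p.Prime] (h4 : p % 4 = 1) (n m e : ℕ) (hm : n ^ 2 + 1 < p ^ (m + 1))
    (h1 : (p : ℤ) ^ e ∣ (A n).re) (h2 : (p : ℤ) ^ e ∣ (A n).im) :
    e ≤ n.factorial.factorization p + (m + 1) := by
  have h3 : (p : ℤ) ^ (2 * e) ∣ (A n).re ^ 2 + (A n).im ^ 2 := by
    rw [mul_comm, pow_mul]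
    exact dvd_add (pow_dvd_pow_of_dvd h1 2) (pow_dvd_pow_of_dvd h2 2)
  rw [normA] at h3
  have h5 : p ^ (2 * e) ∣ ∏ k ∈ range n, (1 + (k + 1) ^ 2) := by exact_mod_cast h3
  have h6 := (hp.out.pow_dvd_iff_le_factorization
    (prod_ne_zero_iff.2 fun k _ => by positivity)).1 h5
  have := upperN p h4 n m hm
  omega

/-- The product from `n+1` to `n+s`. -/
def C (n s : ℕ) : GaussianInt := ∏ k ∈ range s, (⟨1, ((n + k : ℕ) : ℤ) + 1⟩ : GaussianInt)

theorem A_add (n s : ℕ) : A (n + s) = A n * C n s := by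
  simp only [A, C]; rw [prod_range_add]

theorem C_inv (n : ℕ) (s : ℕ) (hs : 2 * s ≤ n) : ∃ X Y : ℤ, 0 < X ∧ 0 ≤ Y ∧ (1 ≤ s → 0 < Y) ∧
    n * Y ≤ 2 * s * X ∧ X ^ 2 + Y ^ 2 ≤ ((n + s + 1 : ℕ) : ℤ) ^ (2 * s) ∧
    (C n s = ⟨X, -Y⟩ ∨ C n s = ⟨Y, X⟩ ∨ C n s = ⟨-X, Y⟩ ∨ C n s = ⟨-Y, -X⟩) := by
  induction s with
  | zero => exact ⟨1, 0, by simp, by simp, by simp, by simp, by simp, Or.inl (by simp [C]; rfl)⟩
  | succ s ih =>
    obtain ⟨X, Y, hX, hY, -, hi, hn, hC⟩ := ih (by omega)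
    have e : C n (s + 1) = C n s * ⟨1, ((n + s : ℕ) : ℤ) + 1⟩ := by simp only [C, prod_range_succ]
    set k : ℤ := ((n + s : ℕ) : ℤ) + 1 with hk
    have hn2 : (2 : ℤ) * s + 2 ≤ n := by exact_mod_cast (by omega : 2 * s + 2 ≤ n)
    have hs0 : (0 : ℤ) ≤ s := by positivity
    have hk1 : (n : ℤ) + 1 ≤ k := by rw [hk]; push_cast; linarith
    have hYX : Y ≤ X := by
      by_contra hc
      push Not at hc
      nlinarith
    refine ⟨X * k - Y, X + Y * k, by nlinarith, by positivity, fun _ => by positivity, ?_, ?_, ?_⟩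
    · push_cast
      have h1 : n * Y * k ≤ 2 * s * X * k := mul_le_mul_of_nonneg_right hi (by linarith)
      have h2 : (2 * s + 2) * Y ≤ n * X := by nlinarith
      have h3 : X * (n + 1) ≤ X * k := mul_le_mul_of_nonneg_left hk1 hX.le
      nlinarith
    · have e1 : (X * k - Y) ^ 2 + (X + Y * k) ^ 2 = (X ^ 2 + Y ^ 2) * (k ^ 2 + 1) := by ring
      have e2 : ((n + (s + 1) + 1 : ℕ) : ℤ) = k + 1 := by rw [hk]; push_cast; ring
      have e3 : ((n + s + 1 : ℕ) : ℤ) = k := by rw [hk]; push_cast; ring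
      rw [e1, e2, show 2 * (s + 1) = 2 * s + 2 by ring, pow_add]
      rw [e3] at hn
      have hk0 : 0 ≤ k := by linarith
      apply mul_le_mul (hn.trans (pow_le_pow_left₀ hk0 (by linarith) _)) (by nlinarith)
        (by positivity) (by positivity)
    · rw [e]
      rcases hC with h | h | h | h <;> rw [h]
      · right; left; ext <;> simp [Zsqrtd.re_mul, Zsqrtd.im_mul] <;> ring
      · right; right; left; ext <;> simp [Zsqrtd.re_mul, Zsqrtd.im_mul] <;> ring
      · right; right; right; ext <;> simp [Zsqrtd.re_mul, Zsqrtd.im_mul] <;> ring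
      · left; ext <;> simp [Zsqrtd.re_mul, Zsqrtd.im_mul] <;> ring

theorem gap (p : ℕ) [hp : Fact p.Prime] (h4 : p % 4 = 1) (n s m t : ℕ) (hm : n ^ 2 + 1 < p ^ (m + 1))
    (hs1 : 1 ≤ s) (hs : 2 * s ≤ n)
    (h1 : (p : ℤ) ^ (n.factorial.factorization p + (m + 1) + t + 1) ∣ (A n).im)
    (h2 : (p : ℤ) ^ (n.factorial.factorization p + (m + 1) + t + 1) ∣ (A (n + s)).im) :
    p ^ t ≤ (n + s + 1) ^ s := by
  set G := n.factorial.factorization p + (m + 1) with hG
  obtain ⟨X, Y, hX, hY, hY', -, hn, hC⟩ := C_inv n s hs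
  have hY1 := hY' hs1
  have hd0 : (C n s).im ≠ 0 := by
    rcases hC with h | h | h | h <;> rw [h] <;> simp <;> omega
  have hd1 : (C n s).im ^ 2 ≤ X ^ 2 + Y ^ 2 := by
    rcases hC with h | h | h | h <;> rw [h] <;> simp <;> positivity
  have h3 : (p : ℤ) ^ (G + t + 1) ∣ (A n).re * (C n s).im := by
    rw [A_add, Zsqrtd.im_mul] at h2
    exact (dvd_add_left (h1.mul_right _)).1 h2
  have h5 : ¬ (p : ℤ) ^ (G + 1) ∣ (A n).re := fun h => by
    have := both p h4 n m (G + 1) hm h ((pow_dvd_pow _ (by omega)).trans h1)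
    omega
  have hre : (A n).re ≠ 0 := fun h => h5 (by rw [h]; exact dvd_zero _)
  have h6 : (p : ℤ) ^ t ∣ (C n s).im := by
    rw [padicValInt_dvd_iff] at h3 h5 ⊢
    rw [padicValInt.mul hre hd0] at h3
    have := mul_ne_zero hre hd0
    right
    push Not at h5
    rcases h3 with h3 | h3
    · exact absurd h3 this
    · omega
  have h7 : ((p : ℤ) ^ t) ^ 2 ≤ (((n + s + 1 : ℕ) : ℤ) ^ s) ^ 2 := by
    have := Int.le_of_dvd (by positivity) (pow_dvd_pow_of_dvd h6 2)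
    rw [← pow_mul ((n + s + 1 : ℕ) : ℤ), mul_comm s 2]
    linarith
  have h8 := (pow_le_pow_iff_left₀ (by positivity) (by positivity) (by norm_num)).1 h7
  exact_mod_cast h8

end Pool.Agent.H.MP_054fa1_nt
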